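import Pool.Agent.Lib.MP_4cd976_an.E.Defs

/-!
# Reduction of `A2Bound` to normalised maps (affine invariance)
-/

set_option autoImplicit false

open Complex Metric Set

namespace Pool.Agent.Lib.MP4cd976.E

private lemma diffAt_of {f : ℂ → ℂ} (hf : DifferentiableOn ℂ f (ball 0 1)) {z : ℂ}
    (hz : z ∈ ball (0 : ℂ) 1) : DifferentiableAt ℂ f z :=
  hf.differentiableAt (isOpen_ball.mem_nhds hz)

theorem a2Bound_of_norm (H : A2Norm) : A2Bound := by
  intro h g hu u hu1
  have h0 : (0 : ℂ) ∈ ball (0 : ℂ) 1 := by simp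
  set α := deriv h 0 with hα
  set β := deriv g 0 with hβ
  have hlt : ‖β‖ < ‖α‖ := hu.sp 0 h0
  have hαβ : 0 < ‖α‖ ^ 2 - ‖β‖ ^ 2 := by nlinarith [norm_nonneg β]
  set J : ℝ := ‖α‖ ^ 2 - ‖β‖ ^ 2 with hJ
  set c : ℂ →+* ℂ := starRingEnd ℂ with hc
  have hJc : (J : ℂ) = α * c α - β * c β := by
    rw [hc]; simp only [Complex.mul_conj, hJ, Complex.normSq_eq_norm_sq]; push_cast; ring
  have hJ0 : (J : ℂ) ≠ 0 := by exact_mod_cast hαβ.ne'
  set p : ℂ := c α / J with hp
  set q : ℂ := -(c β) / J with hq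
  have hcp : c p = α / J := by simp [hp, hc]
  have hcq : c q = -β / J := by simp [hq, hc]
  have hpq : ‖q‖ < ‖p‖ := by
    rw [hp, hq]; simp only [hc, norm_div, norm_neg, RCLike.norm_conj]
    exact div_lt_div_of_pos_right hlt (by rw [norm_pos_iff]; exact hJ0)
  -- the normalised pair
  set h₁ : ℂ → ℂ := fun z => p * (h z - h 0) + q * (g z - g 0) with hh₁
  set g₁ : ℂ → ℂ := fun z => c p * (g z - g 0) + c q * (h z - h 0) with hg₁
  have dh : ∀ z ∈ ball (0 : ℂ) 1, HasDerivAt h₁ (p * deriv h z + q * deriv g z) z := by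
    intro z hz
    exact (((diffAt_of hu.hd hz).hasDerivAt.sub_const _).const_mul p).add
      (((diffAt_of hu.gd hz).hasDerivAt.sub_const _).const_mul q)
  have dg : ∀ z ∈ ball (0 : ℂ) 1, HasDerivAt g₁ (c p * deriv g z + c q * deriv h z) z := by
    intro z hz
    exact (((diffAt_of hu.gd hz).hasDerivAt.sub_const _).const_mul (c p)).add
      (((diffAt_of hu.hd hz).hasDerivAt.sub_const _).const_mul (c q))
  have key : ∀ X Y : ℂ, ‖p * X + q * Y‖ ^ 2 - ‖c p * Y + c q * X‖ ^ 2
      = (‖p‖ ^ 2 - ‖q‖ ^ 2) * (‖X‖ ^ 2 - ‖Y‖ ^ 2) := by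
    intro X Y
    rw [hc]
    simp only [← Complex.normSq_eq_norm_sq, Complex.normSq_apply, Complex.add_re, Complex.add_im,
      Complex.mul_re, Complex.mul_im, Complex.conj_re, Complex.conj_im]
    ring
  have hu₁ : IsHU h₁ g₁ := by
    refine ⟨fun z hz => (dh z hz).differentiableAt.differentiableWithinAt,
      fun z hz => (dg z hz).differentiableAt.differentiableWithinAt, ?_, ?_⟩
    · intro z hz
      rw [(dh z hz).deriv, (dg z hz).deriv]
      have h1 := key (deriv h z) (deriv g z)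
      have h2 := hu.sp z hz
      have h3 : 0 < (‖p‖ ^ 2 - ‖q‖ ^ 2) * (‖deriv h z‖ ^ 2 - ‖deriv g z‖ ^ 2) := by
        apply mul_pos
        · nlinarith [norm_nonneg q]
        · nlinarith [norm_nonneg (deriv g z)]
      rw [← h1] at h3
      exact lt_of_pow_lt_pow_left₀ 2 (norm_nonneg _) (by linarith)
    · intro z hz w hw hzw
      apply hu.inj hz hw
      simp only [hh₁, hg₁] at hzw ⊢
      -- T(f z - f 0) = T(f w - f 0)
      have e1 : ∀ z, p * (h z - h 0) + q * (g z - g 0)
          + (starRingEnd ℂ) (c p * (g z - g 0) + c q * (h z - h 0))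
          = p * (h z + (starRingEnd ℂ) (g z) - (h 0 + (starRingEnd ℂ) (g 0)))
            + q * (starRingEnd ℂ) (h z + (starRingEnd ℂ) (g z) - (h 0 + (starRingEnd ℂ) (g 0))) := by
        intro z; rw [hc]; simp; ring
      rw [e1, e1] at hzw
      set A := h z + (starRingEnd ℂ) (g z)
      set B := h w + (starRingEnd ℂ) (g w)
      have e2 : p * (A - B) = - (q * (starRingEnd ℂ) (A - B)) := by
        simp only [map_sub, map_add] at hzw ⊢
        linear_combination hzw
      by_contra hne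
      have hAB : A - B ≠ 0 := sub_ne_zero.mpr hne
      have e3 : ‖p‖ * ‖A - B‖ = ‖q‖ * ‖A - B‖ := by
        rw [← norm_mul, e2, norm_neg, norm_mul, RCLike.norm_conj]
      have : ‖p‖ = ‖q‖ := mul_right_cancel₀ (norm_ne_zero_iff.mpr hAB) e3
      linarith
  have hh0 : h₁ 0 = 0 := by simp [hh₁]
  have hg0 : g₁ 0 = 0 := by simp [hg₁]
  have hh0' : deriv h₁ 0 = 1 := by
    rw [(dh 0 h0).deriv, ← hα, ← hβ, hp, hq]
    field_simp
    rw [hJc]; ring
  have hg0' : deriv g₁ 0 = 0 := by
    rw [(dg 0 h0).deriv, ← hα, ← hβ, hcp, hcq]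
    ring
  -- second derivatives
  have dh2 : DifferentiableAt ℂ (deriv h) 0 :=
    diffAt_of (hu.hd.deriv isOpen_ball) h0
  have dg2 : DifferentiableAt ℂ (deriv g) 0 :=
    diffAt_of (hu.gd.deriv isOpen_ball) h0
  have hh2 : deriv (deriv h₁) 0 = p * deriv (deriv h) 0 + q * deriv (deriv g) 0 := by
    have : deriv h₁ =ᶠ[nhds 0] fun z => p * deriv h z + q * deriv g z := by
      filter_upwards [isOpen_ball.mem_nhds h0] with z hz using (dh z hz).deriv
    rw [this.deriv_eq]
    exact ((dh2.hasDerivAt.const_mul p).add (dg2.hasDerivAt.const_mul q)).deriv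
  have hg2 : deriv (deriv g₁) 0 = c p * deriv (deriv g) 0 + c q * deriv (deriv h) 0 := by
    have : deriv g₁ =ᶠ[nhds 0] fun z => c p * deriv g z + c q * deriv h z := by
      filter_upwards [isOpen_ball.mem_nhds h0] with z hz using (dg z hz).deriv
    rw [this.deriv_eq]
    exact ((dg2.hasDerivAt.const_mul (c p)).add (dh2.hasDerivAt.const_mul (c q))).deriv
  -- choice of v
  have hden : c p - u * c q ≠ 0 := by
    intro h'
    have : ‖c p‖ = ‖u * c q‖ := by rw [sub_eq_zero.mp h']
    rw [norm_mul, hu1, one_mul] at this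
    simp only [hc, RCLike.norm_conj] at this
    linarith
  set v : ℂ := (u * p - q) / (c p - u * c q) with hv
  have hcu : u * c u = 1 := by
    rw [hc]; rw [Complex.mul_conj, Complex.normSq_eq_norm_sq, hu1]; simp
  have hv1 : ‖v‖ = 1 := by
    have e : u * p - q = u * c (c p - u * c q) := by
      rw [hc] at hcu ⊢
      simp only [map_sub, map_mul, Complex.conj_conj]
      linear_combination q * hcu
    have hden' : ‖c p - u * c q‖ ≠ 0 := norm_ne_zero_iff.mpr hden
    rw [hv, e, norm_div, norm_mul, hu1, one_mul, hc, RCLike.norm_conj, div_self]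
    exact hden'
  have huv : u * (p + v * c q) = q + v * c p := by
    rw [hv]; field_simp; ring
  have main := H h₁ g₁ hu₁ hh0 hh0' hg0 hg0' v hv1
  rw [hh2, hg2] at main
  have e1 : p * deriv (deriv h) 0 + q * deriv (deriv g) 0
      + v * (c p * deriv (deriv g) 0 + c q * deriv (deriv h) 0)
      = (p + v * c q) * (deriv (deriv h) 0 + u * deriv (deriv g) 0) := by
    linear_combination (- deriv (deriv g) 0) * huv
  have e2 : (p + v * c q) * (α + u * β) = 1 := by
    have a1 : p * α + q * β = 1 := by rw [← hh0', (dh 0 h0).deriv]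
    have a2 : c p * β + c q * α = 0 := by rw [← hg0', (dg 0 h0).deriv]
    linear_combination β * huv + a1 + v * a2
  rw [e1, norm_mul] at main
  have e3 : ‖p + v * c q‖ * ‖α + u * β‖ = 1 := by rw [← norm_mul, e2, norm_one]
  have hpos : 0 < ‖α + u * β‖ := by
    rcases (norm_nonneg (α + u * β)).lt_or_eq with h' | h'
    · exact h'
    · rw [← h'] at e3; simp at e3
  calc ‖deriv (deriv h) 0 + u * deriv (deriv g) 0‖
      = (‖p + v * c q‖ * ‖deriv (deriv h) 0 + u * deriv (deriv g) 0‖) * ‖α + u * β‖ := by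
        rw [mul_assoc, mul_comm (‖deriv (deriv h) 0 + u * deriv (deriv g) 0‖), ← mul_assoc, e3,
          one_mul]
    _ ≤ 6 * ‖α + u * β‖ := by gcongr

end Pool.Agent.Lib.MP4cd976.E
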