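import Pool.Agent.Lib.MP_4cd976_an.E.Dist
import Pool.Agent.Lib.MP_4cd976_an.E.Norm

/-!
# The covering step and the end game
-/

set_option autoImplicit false

open Complex Metric Set Filter Topology

namespace Pool.Agent.Lib.MP4cd976.E

/-- `Φ(r) = ∫_0^r (1-ρ)^2/(1+ρ)^4 dρ`. -/
noncomputable def Phi (r : ℝ) : ℝ := (1 - ((1 - r) / (1 + r)) ^ 3) / 6

lemma Phi_zero : Phi 0 = 0 := by simp [Phi]

lemma Phi_one : Phi 1 = 1 / 6 := by simp [Phi]

lemma Phi_hasDerivAt {r : ℝ} (hr : 0 ≤ r) :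
    HasDerivAt Phi ((1 - r) ^ 2 / (1 + r) ^ 4) r := by
  have h1 : (1 + r) ≠ 0 := by linarith
  have a1 : HasDerivAt (fun r : ℝ => 1 - r) (-1) r := by
    simpa using (hasDerivAt_id r).const_sub 1
  have a2 : HasDerivAt (fun r : ℝ => 1 + r) 1 r := by
    simpa using (hasDerivAt_id r).const_add 1
  have a3 := ((a1.fun_div a2 h1).fun_pow 3).const_sub 1 |>.div_const 6
  refine a3.congr_deriv ?_
  have e : ((1 - r) / (1 + r)) ^ (3 - 1) = (1 - r) ^ 2 / (1 + r) ^ 2 := by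
    rw [show 3 - 1 = 2 from rfl, div_pow]
  rw [e]
  push_cast
  field_simp
  ring

lemma Phi_mono {r s : ℝ} (hr : 0 ≤ r) (hrs : r ≤ s) (hs : s ≤ 1) : Phi r ≤ Phi s := by
  unfold Phi
  have h1 : 0 ≤ (1 - s) / (1 + s) := div_nonneg (by linarith) (by linarith)
  have h2 : (1 - s) / (1 + s) ≤ (1 - r) / (1 + r) := by
    rw [div_le_div_iff₀ (by linarith) (by linarith)]
    nlinarith
  have h3 : ((1 - s) / (1 + s)) ^ 3 ≤ ((1 - r) / (1 + r)) ^ 3 := pow_le_pow_left₀ h1 h2 3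
  linarith

private lemma diffAt_of {f : ℂ → ℂ} (hf : DifferentiableOn ℂ f (ball 0 1)) {z : ℂ}
    (hz : z ∈ ball (0 : ℂ) 1) : DifferentiableAt ℂ f z :=
  hf.differentiableAt (isOpen_ball.mem_nhds hz)

/-- Covering theorem for a harmonic map with a lower bound on the stretching. -/
theorem covering_of_stretch {h g : ℂ → ℂ} (hd : DifferentiableOn ℂ h (ball 0 1))
    (gd : DifferentiableOn ℂ g (ball 0 1)) (h0 : h 0 = 0) (g0 : g 0 = 0)
    (hs : ∀ z : ℂ, ‖z‖ < 1 → (1 - ‖z‖) ^ 2 / (1 + ‖z‖) ^ 4 ≤ ‖deriv h z‖ - ‖deriv g z‖) :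
    ball (0 : ℂ) (1 / 6) ⊆ (fun z => h z + (starRingEnd ℂ) (g z)) '' ball (0 : ℂ) 1 := by
  intro w hw
  by_contra hnot
  set f : ℂ → ℂ := fun z => h z + (starRingEnd ℂ) (g z) with hf
  have hne : ∀ z : ℂ, ‖z‖ < 1 → f z ≠ w := by
    intro z hz h'
    exact hnot ⟨z, by simpa using hz, h'⟩
  have hw6 : ‖w‖ < 1 / 6 := by simpa using hw
  set κ : ℝ := (6 * ‖w‖ + 1) / 2 with hκ
  have hκ1 : κ < 1 := by rw [hκ]; linarith
  have hκ0 : 0 < κ := by rw [hκ]; linarith [norm_nonneg w]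
  have hκw : ‖w‖ < κ * Phi 1 := by rw [Phi_one, hκ]; linarith
  -- choice of r0
  obtain ⟨r0, hr0, hr01⟩ : ∃ r0 : ℝ, ‖w‖ < κ * Phi r0 ∧ r0 ∈ Ioo (0 : ℝ) 1 := by
    have hc : ContinuousAt (fun r => κ * Phi r) 1 :=
      ((Phi_hasDerivAt (show (0 : ℝ) ≤ 1 by norm_num)).continuousAt).const_mul κ
    have h1 : ∀ᶠ r in 𝓝 (1 : ℝ), ‖w‖ < κ * Phi r := hc.eventually (lt_mem_nhds hκw)
    have h2 : ∀ᶠ r in 𝓝[<] (1 : ℝ), ‖w‖ < κ * Phi r := nhdsWithin_le_nhds h1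
    have h3 : ∀ᶠ r in 𝓝[<] (1 : ℝ), r ∈ Ioo (0 : ℝ) 1 := Ioo_mem_nhdsLT (by norm_num)
    exact (h2.and h3).exists
  -- continuity
  have hcontf : ContinuousOn f (ball 0 1) :=
    hd.continuousOn.add (Complex.continuous_conj.comp_continuousOn gd.continuousOn)
  have hsub : closedBall (0 : ℂ) r0 ⊆ ball 0 1 := closedBall_subset_ball hr01.2
  have hcontF : ContinuousOn (fun z => ‖f z - w‖ + κ * Phi ‖z‖) (closedBall 0 r0) := by
    apply ContinuousOn.add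
    · exact ((hcontf.mono hsub).sub continuousOn_const).norm
    · apply ContinuousOn.mul continuousOn_const
      intro z _
      exact ((Phi_hasDerivAt (norm_nonneg z)).continuousAt.comp
        continuous_norm.continuousAt).continuousWithinAt
  obtain ⟨z, hzmem, hzmin⟩ := (isCompact_closedBall (0 : ℂ) r0).exists_isMinOn
    ⟨0, by simp [hr01.1.le]⟩ hcontF
  have hz0 : ‖f z - w‖ + κ * Phi ‖z‖ ≤ ‖w‖ := by
    have h1 := hzmin (show (0 : ℂ) ∈ closedBall (0 : ℂ) r0 by simp [hr01.1.le])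
    simp only [mem_ofPred_eq, norm_zero, Phi_zero, mul_zero, add_zero] at h1
    have h2 : f 0 = 0 := by simp [hf, h0, g0]
    rw [h2, zero_sub, norm_neg] at h1
    exact h1
  have hzr : ‖z‖ ≤ r0 := by simpa using hzmem
  have hzlt : ‖z‖ < r0 := by
    rcases hzr.lt_or_eq with h' | h'
    · exact h'
    · exfalso
      rw [h'] at hz0
      have := norm_nonneg (f z - w)
      linarith
  have hz1 : ‖z‖ < 1 := by linarith [hr01.2]
  have hzb : z ∈ ball (0 : ℂ) 1 := by simpa using hz1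
  -- direction of descent
  set A := deriv h z with hA
  set B := deriv g z with hB
  set m : ℝ := (1 - ‖z‖) ^ 2 / (1 + ‖z‖) ^ 4 with hm
  have hm0 : 0 < m := by
    rw [hm]; have : 0 < 1 - ‖z‖ := by linarith
    have : 0 < 1 + ‖z‖ := by linarith [norm_nonneg z]
    positivity
  have hmAB : m ≤ ‖A‖ - ‖B‖ := hs z hz1
  set N : ℝ := ‖f z - w‖ with hN
  have hN0 : 0 < N := norm_pos_iff.mpr (sub_ne_zero.mpr (hne z hz1))
  set E : ℂ := (f z - w) / N with hE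
  have hNc : (N : ℂ) ≠ 0 := by exact_mod_cast hN0.ne'
  have hE1 : ‖E‖ = 1 := by
    rw [hE, norm_div, Complex.norm_real, Real.norm_eq_abs, abs_of_pos hN0, ← hN]
    exact div_self hN0.ne'
  set J : ℝ := ‖A‖ ^ 2 - ‖B‖ ^ 2 with hJ
  have hJ0 : 0 < J := by rw [hJ]; nlinarith [norm_nonneg B, norm_nonneg A]
  have hJc : (J : ℂ) = A * (starRingEnd ℂ) A - B * (starRingEnd ℂ) B := by
    simp only [Complex.mul_conj, hJ, Complex.normSq_eq_norm_sq]; push_cast; ring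
  have hJ0c : (J : ℂ) ≠ 0 := by exact_mod_cast hJ0.ne'
  set v : ℂ := -((starRingEnd ℂ) A * E - (starRingEnd ℂ) B * (starRingEnd ℂ) E) / J with hv
  have hAv : A * v + (starRingEnd ℂ) (B * v) = -E := by
    rw [hv]
    simp only [map_mul, map_div₀, map_neg, map_sub, Complex.conj_conj, Complex.conj_ofReal]
    field_simp
    rw [hJc]; ring
  have hvn : ‖v‖ * m ≤ 1 := by
    have h1 : ‖v‖ ≤ (‖A‖ + ‖B‖) / J := by
      rw [hv, norm_div, norm_neg, Complex.norm_real, Real.norm_eq_abs, abs_of_pos hJ0]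
      apply div_le_div_of_nonneg_right _ hJ0.le
      calc ‖(starRingEnd ℂ) A * E - (starRingEnd ℂ) B * (starRingEnd ℂ) E‖
          ≤ ‖(starRingEnd ℂ) A * E‖ + ‖(starRingEnd ℂ) B * (starRingEnd ℂ) E‖ := norm_sub_le _ _
        _ = ‖A‖ + ‖B‖ := by
          rw [norm_mul, norm_mul, RCLike.norm_conj, RCLike.norm_conj, RCLike.norm_conj, hE1]; ring
    have h2 : (‖A‖ + ‖B‖) / J * (‖A‖ - ‖B‖) = 1 := by
      rw [hJ]; rw [hJ] at hJ0; field_simp; ring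
    calc ‖v‖ * m ≤ ((‖A‖ + ‖B‖) / J) * (‖A‖ - ‖B‖) := by
          apply mul_le_mul h1 hmAB hm0.le
          apply div_nonneg _ hJ0.le; positivity
      _ = 1 := h2
  -- expansions
  set ε : ℝ := (1 - κ) / 4 with hε
  have hε0 : 0 < ε := by rw [hε]; linarith
  have hline : HasDerivAt (fun s : ℝ => z + (s : ℂ) * v) v 0 := by
    simpa using ((Complex.ofRealCLM.hasDerivAt (x := (0 : ℝ))).mul_const v).const_add z
  have hfd : HasDerivAt (fun s : ℝ => f (z + (s : ℂ) * v)) (-E) 0 := by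
    have b1 : HasDerivAt (fun s : ℝ => h (z + (s : ℂ) * v)) (A * v) 0 :=
      HasDerivAt.comp_of_eq (0 : ℝ) (diffAt_of hd hzb).hasDerivAt hline (by simp)
    have b2 : HasDerivAt (fun s : ℝ => g (z + (s : ℂ) * v)) (B * v) 0 :=
      HasDerivAt.comp_of_eq (0 : ℝ) (diffAt_of gd hzb).hasDerivAt hline (by simp)
    have b3 : HasDerivAt (fun s : ℝ => (starRingEnd ℂ) (g (z + (s : ℂ) * v)))
        ((starRingEnd ℂ) (B * v)) 0 := by
      have := (Complex.conjCLE : ℂ ≃L[ℝ] ℂ).hasFDerivAt.comp_hasDerivAt (0 : ℝ) b2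
      simpa [Function.comp_def] using this
    rw [← hAv]
    exact b1.add b3
  have hlo : ∀ᶠ s : ℝ in 𝓝 0, ‖f (z + (s : ℂ) * v) - f z - s • (-E)‖ ≤ ε * ‖s‖ := by
    have := (hasDerivAt_iff_isLittleO.mp hfd).def hε0
    simpa using this
  have hPd : HasDerivAt (fun s : ℝ => Phi (‖z‖ + s * ‖v‖)) (m * ‖v‖) 0 := by
    have c1 : HasDerivAt (fun s : ℝ => ‖z‖ + s * ‖v‖) ‖v‖ 0 := by
      simpa using ((hasDerivAt_id (0 : ℝ)).mul_const ‖v‖).const_add ‖z‖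
    exact HasDerivAt.comp_of_eq (0 : ℝ) (Phi_hasDerivAt (norm_nonneg z)) c1 (by simp)
  have hPo : ∀ᶠ s : ℝ in 𝓝 0, ‖Phi (‖z‖ + s * ‖v‖) - Phi ‖z‖ - s • (m * ‖v‖)‖ ≤ ε * ‖s‖ := by
    have := (hasDerivAt_iff_isLittleO.mp hPd).def hε0
    simpa using this
  have hsm : ∀ᶠ s : ℝ in 𝓝 0, ‖z‖ + s * ‖v‖ < r0 := by
    have c1 : ContinuousAt (fun s : ℝ => ‖z‖ + s * ‖v‖) 0 := by fun_prop
    exact c1.eventually (gt_mem_nhds (by simpa using hzlt))
  have hsN : ∀ᶠ s : ℝ in 𝓝 0, s < N := gt_mem_nhds hN0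
  have hall : ∀ᶠ s : ℝ in 𝓝[>] 0, (‖f (z + (s : ℂ) * v) - f z - s • (-E)‖ ≤ ε * ‖s‖ ∧
      ‖Phi (‖z‖ + s * ‖v‖) - Phi ‖z‖ - s • (m * ‖v‖)‖ ≤ ε * ‖s‖ ∧ ‖z‖ + s * ‖v‖ < r0 ∧ s < N) ∧
      0 < s := by
    have d1 : ∀ᶠ s : ℝ in 𝓝[>] 0, (‖f (z + (s : ℂ) * v) - f z - s • (-E)‖ ≤ ε * ‖s‖ ∧
      ‖Phi (‖z‖ + s * ‖v‖) - Phi ‖z‖ - s • (m * ‖v‖)‖ ≤ ε * ‖s‖ ∧ ‖z‖ + s * ‖v‖ < r0 ∧ s < N) :=
      nhdsWithin_le_nhds (hlo.and (hPo.and (hsm.and hsN)))
    exact d1.and self_mem_nhdsWithin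
  obtain ⟨s, ⟨hs1, hs2, hs3, hs4⟩, hs0⟩ := hall.exists
  rw [Real.norm_eq_abs s, abs_of_pos hs0] at hs1 hs2
  have hnz : ‖z + (s : ℂ) * v‖ ≤ ‖z‖ + s * ‖v‖ := by
    refine (norm_add_le _ _).trans ?_
    rw [norm_mul, Complex.norm_real, Real.norm_eq_abs, abs_of_pos hs0]
  have hmin := hzmin (show z + (s : ℂ) * v ∈ closedBall (0 : ℂ) r0 by
    simpa using (hnz.trans hs3.le))
  simp only [mem_ofPred_eq] at hmin
  -- upper bound for the new value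
  have u1 : ‖f (z + (s : ℂ) * v) - w‖ ≤ (N - s) + ε * s := by
    have e1 : f (z + (s : ℂ) * v) - w
        = (f (z + (s : ℂ) * v) - f z - s • (-E)) + ((N - s : ℝ) : ℂ) * E := by
      have : f z - w = (N : ℂ) * E := by rw [hE]; field_simp
      simp only [Complex.real_smul]
      push_cast
      linear_combination this
    rw [e1]
    refine (norm_add_le _ _).trans ?_
    rw [norm_mul, hE1, mul_one, Complex.norm_real, Real.norm_eq_abs,
      abs_of_pos (show (0 : ℝ) < N - s by linarith)]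
    linarith
  have u2 : Phi ‖z + (s : ℂ) * v‖ ≤ Phi ‖z‖ + s + ε * s := by
    have e1 : Phi ‖z + (s : ℂ) * v‖ ≤ Phi (‖z‖ + s * ‖v‖) :=
      Phi_mono (norm_nonneg _) hnz (by linarith [hr01.2])
    have e2 := (abs_le.mp (by simpa [Real.norm_eq_abs] using hs2)).2
    have e3 : s * (m * ‖v‖) ≤ s := by nlinarith
    linarith
  have u3 : κ * Phi ‖z + (s : ℂ) * v‖ ≤ κ * (Phi ‖z‖ + s + ε * s) :=
    mul_le_mul_of_nonneg_left u2 hκ0.le
  have u4 : ε * (1 + κ) < 1 - κ := by rw [hε]; nlinarith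
  nlinarith

/-- The end game: the second coefficient bound implies the covering theorem. -/
theorem endgame_bound (H : A2Bound) :
    ∀ h g : ℂ → ℂ,
      DifferentiableOn ℂ h (Metric.ball (0 : ℂ) 1) →
      DifferentiableOn ℂ g (Metric.ball (0 : ℂ) 1) →
      h 0 = 0 → deriv h 0 = 1 → g 0 = 0 → deriv g 0 = 0 →
      (∀ z ∈ Metric.ball (0 : ℂ) 1, ‖deriv g z‖ < ‖deriv h z‖) →
      Set.InjOn (fun z => h z + starRingEnd ℂ (g z)) (Metric.ball (0 : ℂ) 1) →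
      Metric.ball (0 : ℂ) (1 / 6) ⊆
        (fun z => h z + starRingEnd ℂ (g z)) '' Metric.ball (0 : ℂ) 1 := by
  intro h g hd gd h0 h1 g0 g1 sp inj
  exact covering_of_stretch hd gd h0 g0 (fun z hz => distortion H ⟨hd, gd, sp, inj⟩ h1 g1 hz)

/-- The end game with the normalised hypothesis only. -/
theorem endgame (H : A2Norm) :
    ∀ h g : ℂ → ℂ,
      DifferentiableOn ℂ h (Metric.ball (0 : ℂ) 1) →
      DifferentiableOn ℂ g (Metric.ball (0 : ℂ) 1) →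
      h 0 = 0 → deriv h 0 = 1 → g 0 = 0 → deriv g 0 = 0 →
      (∀ z ∈ Metric.ball (0 : ℂ) 1, ‖deriv g z‖ < ‖deriv h z‖) →
      Set.InjOn (fun z => h z + starRingEnd ℂ (g z)) (Metric.ball (0 : ℂ) 1) →
      Metric.ball (0 : ℂ) (1 / 6) ⊆
        (fun z => h z + starRingEnd ℂ (g z)) '' Metric.ball (0 : ℂ) 1 :=
  endgame_bound (a2Bound_of_norm H)

end Pool.Agent.Lib.MP4cd976.E
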