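import Mathlib

/-!
# MP_4cd976_an, block E (end game): definitions

`A2Norm` is the only input of the end game: for every normalised univalent sense preserving
harmonic map `h + conj g` of the disk and every unimodular `u` the analytic function `h + u g`
has second coefficient of modulus at most `3`.
-/

set_option autoImplicit false

open Complex Metric Set

namespace Pool.Agent.Lib.MP4cd976.E

/-- `h + conj g` is an injective sense preserving harmonic map of the unit disk. -/
structure IsHU (h g : ℂ → ℂ) : Prop where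
  hd : DifferentiableOn ℂ h (ball 0 1)
  gd : DifferentiableOn ℂ g (ball 0 1)
  sp : ∀ z ∈ ball (0 : ℂ) 1, ‖deriv g z‖ < ‖deriv h z‖
  inj : InjOn (fun z => h z + (starRingEnd ℂ) (g z)) (ball (0 : ℂ) 1)

/-- Second coefficient bound at the origin, normalised maps. -/
def A2Norm : Prop :=
  ∀ h g : ℂ → ℂ, IsHU h g → h 0 = 0 → deriv h 0 = 1 → g 0 = 0 → deriv g 0 = 0 →
    ∀ u : ℂ, ‖u‖ = 1 → ‖deriv (deriv h) 0 + u * deriv (deriv g) 0‖ ≤ 6

/-- Second coefficient bound at the origin, arbitrary maps. -/
def A2Bound : Prop :=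
  ∀ h g : ℂ → ℂ, IsHU h g →
    ∀ u : ℂ, ‖u‖ = 1 →
      ‖deriv (deriv h) 0 + u * deriv (deriv g) 0‖ ≤ 6 * ‖deriv h 0 + u * deriv g 0‖

end Pool.Agent.Lib.MP4cd976.E
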