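import Pool.Agent.Lib.MP_4cd976_an.E.Defs

/-!
# The second coefficient bound at every point (disk automorphisms)
-/

set_option autoImplicit false

open Complex Metric Set

namespace Pool.Agent.Lib.MP4cd976.E

/-- The automorphism `w ↦ (w + a) / (1 + conj a w)` of the disk. -/
noncomputable def aut (a w : ℂ) : ℂ := (w + a) / (1 + (starRingEnd ℂ) a * w)

lemma aut_den_ne {a w : ℂ} (ha : ‖a‖ < 1) (hw : ‖w‖ < 1) : 1 + (starRingEnd ℂ) a * w ≠ 0 := by
  intro h
  have h1 : ‖(starRingEnd ℂ) a * w‖ = 1 := by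
    have : (starRingEnd ℂ) a * w = -1 := by linear_combination h
    rw [this]; simp
  rw [norm_mul, RCLike.norm_conj] at h1
  nlinarith [norm_nonneg a, norm_nonneg w]

lemma aut_zero (a : ℂ) : aut a 0 = a := by simp [aut]

lemma normSq_lt_one_iff {w : ℂ} : normSq w < 1 ↔ ‖w‖ < 1 := by
  rw [Complex.normSq_eq_norm_sq]
  constructor
  · intro h; nlinarith [norm_nonneg w]
  · intro h; nlinarith [norm_nonneg w]

lemma aut_mem {a w : ℂ} (ha : ‖a‖ < 1) (hw : ‖w‖ < 1) : ‖aut a w‖ < 1 := by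
  have hd := aut_den_ne ha hw
  have hd' : 0 < ‖1 + (starRingEnd ℂ) a * w‖ := norm_pos_iff.mpr hd
  rw [aut, norm_div, div_lt_one hd']
  have key : normSq (1 + (starRingEnd ℂ) a * w) - normSq (w + a)
      = (1 - normSq a) * (1 - normSq w) := by
    simp only [Complex.normSq_apply, Complex.add_re, Complex.add_im, Complex.mul_re,
      Complex.mul_im, Complex.conj_re, Complex.conj_im, Complex.one_re, Complex.one_im]
    ring
  have h1 : 0 < (1 - normSq a) * (1 - normSq w) :=
    mul_pos (by linarith [normSq_lt_one_iff.mpr ha]) (by linarith [normSq_lt_one_iff.mpr hw])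
  rw [← key, Complex.normSq_eq_norm_sq, Complex.normSq_eq_norm_sq] at h1
  exact lt_of_pow_lt_pow_left₀ 2 hd'.le (by linarith)

lemma aut_hasDerivAt {a w : ℂ} (ha : ‖a‖ < 1) (hw : ‖w‖ < 1) :
    HasDerivAt (aut a) ((1 - a * (starRingEnd ℂ) a) / (1 + (starRingEnd ℂ) a * w) ^ 2) w := by
  have hd := aut_den_ne ha hw
  have h1 : HasDerivAt (fun w : ℂ => w + a) 1 w := (hasDerivAt_id w).add_const a
  have h2 : HasDerivAt (fun w : ℂ => 1 + (starRingEnd ℂ) a * w) ((starRingEnd ℂ) a) w := by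
    simpa using ((hasDerivAt_id w).const_mul ((starRingEnd ℂ) a)).const_add 1
  have h3 := h1.div h2 hd
  refine h3.congr_deriv ?_
  congr 1
  ring

lemma one_sub_ne {a : ℂ} (ha : ‖a‖ < 1) : (1 : ℂ) - a * (starRingEnd ℂ) a ≠ 0 := by
  rw [Complex.mul_conj, Complex.normSq_eq_norm_sq]
  have : (1 : ℝ) - ‖a‖ ^ 2 ≠ 0 := by nlinarith [norm_nonneg a]
  exact_mod_cast this

lemma aut_injOn {a : ℂ} (ha : ‖a‖ < 1) : InjOn (aut a) (ball 0 1) := by
  intro w hw v hv h
  have hw' : ‖w‖ < 1 := by simpa using hw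
  have hv' : ‖v‖ < 1 := by simpa using hv
  have h1 := aut_den_ne ha hw'
  have h2 := aut_den_ne ha hv'
  rw [aut, aut, div_eq_div_iff h1 h2] at h
  have h3 : (1 - a * (starRingEnd ℂ) a) * (w - v) = 0 := by linear_combination h
  rcases mul_eq_zero.mp h3 with h4 | h4
  · exact absurd h4 (one_sub_ne ha)
  · exact sub_eq_zero.mp h4

private lemma diffAt_of {f : ℂ → ℂ} (hf : DifferentiableOn ℂ f (ball 0 1)) {z : ℂ}
    (hz : z ∈ ball (0 : ℂ) 1) : DifferentiableAt ℂ f z :=
  hf.differentiableAt (isOpen_ball.mem_nhds hz)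

/-- composition with an automorphism: the first derivative near `0` -/
lemma deriv_comp_aut {f : ℂ → ℂ} (hf : DifferentiableOn ℂ f (ball 0 1)) {a : ℂ} (ha : ‖a‖ < 1)
    {w : ℂ} (hw : ‖w‖ < 1) :
    HasDerivAt (fun w => f (aut a w))
      (deriv f (aut a w) * ((1 - a * (starRingEnd ℂ) a) / (1 + (starRingEnd ℂ) a * w) ^ 2)) w := by
  have h1 : aut a w ∈ ball (0 : ℂ) 1 := by simpa using aut_mem ha hw
  exact ((diffAt_of hf h1).hasDerivAt).comp w (aut_hasDerivAt ha hw)

lemma deriv2_comp_aut {f : ℂ → ℂ} (hf : DifferentiableOn ℂ f (ball 0 1)) {a : ℂ} (ha : ‖a‖ < 1) :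
    deriv (deriv (fun w => f (aut a w))) 0
      = deriv (deriv f) a * (1 - a * (starRingEnd ℂ) a) ^ 2
        - 2 * (starRingEnd ℂ) a * (1 - a * (starRingEnd ℂ) a) * deriv f a := by
  have h0 : ‖(0 : ℂ)‖ < 1 := by simp
  have hE : deriv (fun w => f (aut a w)) =ᶠ[nhds 0] fun w =>
      deriv f (aut a w) * ((1 - a * (starRingEnd ℂ) a) / (1 + (starRingEnd ℂ) a * w) ^ 2) := by
    filter_upwards [isOpen_ball.mem_nhds (show (0 : ℂ) ∈ ball (0 : ℂ) 1 by simp)] with w hw
    exact (deriv_comp_aut hf ha (by simpa using hw)).deriv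
  rw [hE.deriv_eq]
  have hf' : DifferentiableOn ℂ (deriv f) (ball 0 1) := hf.deriv isOpen_ball
  have h1 := deriv_comp_aut hf' ha h0
  have h2 : HasDerivAt (fun w : ℂ => (1 - a * (starRingEnd ℂ) a) /
      (1 + (starRingEnd ℂ) a * w) ^ 2)
      (-(2 * (starRingEnd ℂ) a * (1 - a * (starRingEnd ℂ) a))) 0 := by
    have h3 : HasDerivAt (fun w : ℂ => 1 + (starRingEnd ℂ) a * w) ((starRingEnd ℂ) a) 0 := by
      simpa using ((hasDerivAt_id (0 : ℂ)).const_mul ((starRingEnd ℂ) a)).const_add 1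
    have h4 := h3.pow 2
    have h5 := (h4.inv (by simp)).const_mul (1 - a * (starRingEnd ℂ) a)
    refine (h5.congr_deriv ?_).congr_of_eventuallyEq ?_
    · simp; ring
    · filter_upwards with w
      simp [div_eq_mul_inv]
  have h6 := (h1.mul h2).deriv
  rw [show (fun w => deriv f (aut a w) * ((1 - a * (starRingEnd ℂ) a) /
      (1 + (starRingEnd ℂ) a * w) ^ 2)) = (fun w => deriv f (aut a w)) * (fun w =>
      ((1 - a * (starRingEnd ℂ) a) / (1 + (starRingEnd ℂ) a * w) ^ 2)) from rfl, h6]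
  simp only [aut_zero, mul_zero, add_zero, one_pow, div_one]
  ring

/-- The second coefficient bound at every point of the disk. -/
theorem a2_everywhere (H : A2Bound) {h g : ℂ → ℂ} (hu : IsHU h g) {u : ℂ} (hu1 : ‖u‖ = 1)
    {a : ℂ} (ha : ‖a‖ < 1) :
    ‖((1 : ℂ) - a * (starRingEnd ℂ) a) * (deriv (deriv h) a + u * deriv (deriv g) a)
        - 2 * (starRingEnd ℂ) a * (deriv h a + u * deriv g a)‖
      ≤ 6 * ‖deriv h a + u * deriv g a‖ := by
  have h0 : ‖(0 : ℂ)‖ < 1 := by simp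
  have hu₁ : IsHU (fun w => h (aut a w)) (fun w => g (aut a w)) := by
    refine ⟨?_, ?_, ?_, ?_⟩
    · intro w hw
      exact (deriv_comp_aut hu.hd ha (by simpa using hw)).differentiableAt.differentiableWithinAt
    · intro w hw
      exact (deriv_comp_aut hu.gd ha (by simpa using hw)).differentiableAt.differentiableWithinAt
    · intro w hw
      have hw' : ‖w‖ < 1 := by simpa using hw
      rw [(deriv_comp_aut hu.hd ha hw').deriv, (deriv_comp_aut hu.gd ha hw').deriv, norm_mul,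
        norm_mul]
      apply mul_lt_mul_of_pos_right
      · exact hu.sp _ (by simpa using aut_mem ha hw')
      · rw [norm_pos_iff]
        exact div_ne_zero (one_sub_ne ha) (pow_ne_zero _ (aut_den_ne ha hw'))
    · intro w hw v hv hwv
      have hw' : ‖w‖ < 1 := by simpa using hw
      have hv' : ‖v‖ < 1 := by simpa using hv
      apply aut_injOn ha hw hv
      exact hu.inj (by simpa using aut_mem ha hw') (by simpa using aut_mem ha hv') hwv
  have main := H _ _ hu₁ u hu1
  rw [deriv2_comp_aut hu.hd ha, deriv2_comp_aut hu.gd ha, (deriv_comp_aut hu.hd ha h0).deriv,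
    (deriv_comp_aut hu.gd ha h0).deriv] at main
  simp only [aut_zero, mul_zero, add_zero, one_pow, div_one] at main
  have hc : 0 < ‖(1 : ℂ) - a * (starRingEnd ℂ) a‖ := norm_pos_iff.mpr (one_sub_ne ha)
  have e1 : deriv (deriv h) a * (1 - a * (starRingEnd ℂ) a) ^ 2
        - 2 * (starRingEnd ℂ) a * (1 - a * (starRingEnd ℂ) a) * deriv h a
      + u * (deriv (deriv g) a * (1 - a * (starRingEnd ℂ) a) ^ 2
        - 2 * (starRingEnd ℂ) a * (1 - a * (starRingEnd ℂ) a) * deriv g a)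
      = (1 - a * (starRingEnd ℂ) a) * (((1 : ℂ) - a * (starRingEnd ℂ) a) *
        (deriv (deriv h) a + u * deriv (deriv g) a)
        - 2 * (starRingEnd ℂ) a * (deriv h a + u * deriv g a)) := by ring
  have e2 : deriv h a * (1 - a * (starRingEnd ℂ) a) + u * (deriv g a *
      (1 - a * (starRingEnd ℂ) a)) = (1 - a * (starRingEnd ℂ) a) *
      (deriv h a + u * deriv g a) := by ring
  rw [e1, e2, norm_mul, norm_mul] at main
  have : ‖(1 : ℂ) - a * (starRingEnd ℂ) a‖ * ‖((1 : ℂ) - a * (starRingEnd ℂ) a) *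
      (deriv (deriv h) a + u * deriv (deriv g) a)
        - 2 * (starRingEnd ℂ) a * (deriv h a + u * deriv g a)‖
      ≤ ‖(1 : ℂ) - a * (starRingEnd ℂ) a‖ * (6 * ‖deriv h a + u * deriv g a‖) := by
    linarith
  exact le_of_mul_le_mul_left this hc

end Pool.Agent.Lib.MP4cd976.E
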