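import Pool.Agent.Lib.MP_4cd976_an.E.Auto

/-!
# Distortion: `(1-r)^2/(1+r)^4 ≤ |h'| - |g'|`
-/

set_option autoImplicit false

open Complex Metric Set

namespace Pool.Agent.Lib.MP4cd976.E

private lemma diffAt_of {f : ℂ → ℂ} (hf : DifferentiableOn ℂ f (ball 0 1)) {z : ℂ}
    (hz : z ∈ ball (0 : ℂ) 1) : DifferentiableAt ℂ f z :=
  hf.differentiableAt (isOpen_ball.mem_nhds hz)

/-- Radial growth of an analytic function whose logarithmic derivative satisfies the pointwise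
second coefficient bound. -/
theorem radial_growth {K : ℂ → ℂ} (hK : DifferentiableOn ℂ K (ball 0 1))
    (hb : ∀ a : ℂ, ‖a‖ < 1 → ‖((1 : ℂ) - a * (starRingEnd ℂ) a) * deriv K a
      - 2 * (starRingEnd ℂ) a * K a‖ ≤ 6 * ‖K a‖)
    {z : ℂ} (hz : ‖z‖ < 1) :
    ‖K 0‖ * ((1 - ‖z‖) ^ 2 / (1 + ‖z‖) ^ 4) ≤ ‖K z‖ := by
  -- direction
  obtain ⟨e, he, hze⟩ : ∃ e : ℂ, ‖e‖ = 1 ∧ z = (‖z‖ : ℂ) * e := by
    by_cases h0 : z = 0
    · exact ⟨1, by simp, by simp [h0]⟩
    · refine ⟨z / ‖z‖, ?_, ?_⟩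
      · rw [norm_div]; simp [h0]
      · have : (‖z‖ : ℂ) ≠ 0 := by simpa using h0
        field_simp
  set R : ℝ := ‖z‖ with hR
  have hR0 : 0 ≤ R := norm_nonneg z
  have hmem : ∀ r : ℝ, r ∈ Icc (0 : ℝ) R → ‖(r : ℂ) * e‖ < 1 := by
    intro r hr
    rw [norm_mul, he, mul_one, Complex.norm_real, Real.norm_eq_abs, abs_of_nonneg hr.1]
    linarith [hr.2]
  -- derivative of r ↦ normSq (K (r e))
  have hder : ∀ r : ℝ, r ∈ Icc (0 : ℝ) R →
      HasDerivAt (fun r : ℝ => normSq (K ((r : ℂ) * e)))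
        (2 * ((starRingEnd ℂ) (K ((r : ℂ) * e)) * (e * deriv K ((r : ℂ) * e))).re) r := by
    intro r hr
    have h1 : HasDerivAt K (deriv K ((r : ℂ) * e)) ((r : ℂ) * e) :=
      (diffAt_of hK (by simpa using hmem r hr)).hasDerivAt
    have h2 : HasDerivAt (fun r : ℝ => ((r : ℂ) * e)) e r := by
      simpa using (Complex.ofRealCLM.hasDerivAt (x := r)).mul_const e
    have h3 : HasDerivAt (fun r : ℝ => K ((r : ℂ) * e)) (deriv K ((r : ℂ) * e) * e) r :=
      HasDerivAt.comp_of_eq r h1 h2 rfl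
    have hre : HasDerivAt (fun r : ℝ => (K ((r : ℂ) * e)).re)
        (deriv K ((r : ℂ) * e) * e).re r :=
      (Complex.reCLM.hasFDerivAt.comp_hasDerivAt r h3)
    have him : HasDerivAt (fun r : ℝ => (K ((r : ℂ) * e)).im)
        (deriv K ((r : ℂ) * e) * e).im r :=
      (Complex.imCLM.hasFDerivAt.comp_hasDerivAt r h3)
    have h4 := (hre.mul hre).add (him.mul him)
    refine (h4.congr_deriv ?_)
    simp only [Complex.mul_re, Complex.mul_im, Complex.conj_re, Complex.conj_im]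
    ring
  -- differential inequality
  have hineq : ∀ r : ℝ, r ∈ Icc (0 : ℝ) R →
      (2 * (2 * r - 6)) * normSq (K ((r : ℂ) * e)) ≤ (1 - r ^ 2) *
        (2 * ((starRingEnd ℂ) (K ((r : ℂ) * e)) * (e * deriv K ((r : ℂ) * e))).re) := by
    intro r hr
    set a : ℂ := (r : ℂ) * e with ha
    have h1 := hb a (hmem r hr)
    have hee : e * (starRingEnd ℂ) e = 1 := by
      rw [Complex.mul_conj, Complex.normSq_eq_norm_sq, he]; simp
    have haa : a * (starRingEnd ℂ) a = ((r ^ 2 : ℝ) : ℂ) := by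
      rw [ha]; simp only [map_mul, Complex.conj_ofReal]; push_cast
      linear_combination (r : ℂ) ^ 2 * hee
    -- X = conj K * e * (...)
    have h2 : (starRingEnd ℂ) (K a) * e * (((1 : ℂ) - a * (starRingEnd ℂ) a) * deriv K a
        - 2 * (starRingEnd ℂ) a * K a)
        = ((1 - r ^ 2 : ℝ) : ℂ) * ((starRingEnd ℂ) (K a) * (e * deriv K a))
          - ((2 * r * normSq (K a) : ℝ) : ℂ) := by
      rw [haa]
      have hKK : K a * (starRingEnd ℂ) (K a) = (normSq (K a) : ℂ) := Complex.mul_conj _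
      have hca : e * (starRingEnd ℂ) a = (r : ℂ) := by
        rw [ha]; simp only [map_mul, Complex.conj_ofReal]
        linear_combination (r : ℂ) * hee
      push_cast
      linear_combination (-2 * K a * (starRingEnd ℂ) (K a)) * hca - 2 * (r : ℂ) * hKK
    have h3 : |((starRingEnd ℂ) (K a) * e * (((1 : ℂ) - a * (starRingEnd ℂ) a) * deriv K a
        - 2 * (starRingEnd ℂ) a * K a)).re| ≤ 6 * normSq (K a) := by
      refine (Complex.abs_re_le_norm _).trans ?_
      rw [norm_mul, norm_mul, RCLike.norm_conj, he, mul_one, Complex.normSq_eq_norm_sq]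
      nlinarith [norm_nonneg (K a)]
    rw [h2] at h3
    have h4 := (abs_le.mp h3).1
    rw [Complex.sub_re, Complex.re_ofReal_mul, Complex.ofReal_re] at h4
    linarith
  -- monotone function
  have hmono : MonotoneOn (fun r : ℝ => normSq (K ((r : ℂ) * e)) * ((1 + r) ^ 8 / (1 - r) ^ 4))
      (Icc 0 R) := by
    have hd : ∀ r ∈ Icc (0 : ℝ) R, HasDerivAt
        (fun r : ℝ => normSq (K ((r : ℂ) * e)) * ((1 + r) ^ 8 / (1 - r) ^ 4))
        ((2 * ((starRingEnd ℂ) (K ((r : ℂ) * e)) * (e * deriv K ((r : ℂ) * e))).re)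
          * ((1 + r) ^ 8 / (1 - r) ^ 4)
          + normSq (K ((r : ℂ) * e)) *
            ((8 * (1 + r) ^ 7 * (1 - r) ^ 4 + (1 + r) ^ 8 * (4 * (1 - r) ^ 3)) /
              ((1 - r) ^ 4) ^ 2)) r := by
      intro r hr
      have hr1 : (1 - r) ^ 4 ≠ 0 := by
        apply pow_ne_zero; linarith [hr.2]
      have a1 : HasDerivAt (fun r : ℝ => (1 + r) ^ 8) (8 * (1 + r) ^ 7) r := by
        have := ((hasDerivAt_id r).const_add 1).fun_pow 8
        simpa using this
      have a2 : HasDerivAt (fun r : ℝ => (1 - r) ^ 4) (-(4 * (1 - r) ^ 3)) r := by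
        have := ((hasDerivAt_id r).const_sub 1).fun_pow 4
        simpa using this
      have a3 := (hder r hr).mul (a1.div a2 hr1)
      have e : (8 * (1 + r) ^ 7 * (1 - r) ^ 4 - (1 + r) ^ 8 * (-(4 * (1 - r) ^ 3)))
          = (8 * (1 + r) ^ 7 * (1 - r) ^ 4 + (1 + r) ^ 8 * (4 * (1 - r) ^ 3)) := by ring
      rw [e] at a3
      exact a3
    apply monotoneOn_of_deriv_nonneg (convex_Icc 0 R)
    · intro r hr; exact (hd r hr).continuousAt.continuousWithinAt
    · intro r hr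
      exact (hd r (interior_subset hr)).differentiableAt.differentiableWithinAt
    · intro r hr
      have hr' : r ∈ Icc (0 : ℝ) R := interior_subset hr
      rw [(hd r hr').deriv]
      have hpos : 0 < 1 - r := by linarith [hr'.2]
      have hpos2 : 0 < 1 + r := by linarith [hr'.1]
      have h1 := hineq r hr'
      set N := normSq (K ((r : ℂ) * e))
      set D := 2 * ((starRingEnd ℂ) (K ((r : ℂ) * e)) * (e * deriv K ((r : ℂ) * e))).re
      have : D * ((1 + r) ^ 8 / (1 - r) ^ 4) + N *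
            ((8 * (1 + r) ^ 7 * (1 - r) ^ 4 + (1 + r) ^ 8 * (4 * (1 - r) ^ 3)) /
              ((1 - r) ^ 4) ^ 2)
          = (1 + r) ^ 7 / (1 - r) ^ 5 * ((1 - r ^ 2) * D + N * (12 - 4 * r)) := by
        field_simp; ring
      rw [this]
      apply mul_nonneg (by positivity)
      nlinarith
  have hfin := hmono ⟨le_refl 0, hR0⟩ ⟨hR0, le_refl R⟩ hR0
  simp only [ofReal_zero, zero_mul, add_zero, one_pow, sub_zero, div_one, mul_one] at hfin
  rw [← hze] at hfin
  have hR1 : 0 < 1 - R := by linarith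
  have hR2 : 0 < 1 + R := by linarith
  rw [Complex.normSq_eq_norm_sq, Complex.normSq_eq_norm_sq] at hfin
  -- take square roots
  have h5 : (‖K 0‖ * ((1 - R) ^ 2 / (1 + R) ^ 4)) ^ 2 ≤ ‖K z‖ ^ 2 := by
    have : (‖K 0‖ * ((1 - R) ^ 2 / (1 + R) ^ 4)) ^ 2
        = ‖K 0‖ ^ 2 * ((1 - R) ^ 4 / (1 + R) ^ 8) := by
      field_simp
    rw [this]
    calc ‖K 0‖ ^ 2 * ((1 - R) ^ 4 / (1 + R) ^ 8)
        ≤ (‖K z‖ ^ 2 * ((1 + R) ^ 8 / (1 - R) ^ 4)) * ((1 - R) ^ 4 / (1 + R) ^ 8) := by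
          gcongr
      _ = ‖K z‖ ^ 2 := by field_simp
  exact le_of_sq_le_sq h5 (norm_nonneg _)
where
  le_of_sq_le_sq {a b : ℝ} (h : a ^ 2 ≤ b ^ 2) (hb : 0 ≤ b) : a ≤ b :=
    le_of_sq_le_sq' h hb
  le_of_sq_le_sq' {a b : ℝ} (h : a ^ 2 ≤ b ^ 2) (hb : 0 ≤ b) : a ≤ b := by
    nlinarith [abs_le_of_sq_le_sq h hb, le_abs_self a]

/-- The distortion theorem. -/
theorem distortion (H : A2Bound) {h g : ℂ → ℂ} (hu : IsHU h g) (h1 : deriv h 0 = 1)
    (g1 : deriv g 0 = 0) {z : ℂ} (hz : ‖z‖ < 1) :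
    (1 - ‖z‖) ^ 2 / (1 + ‖z‖) ^ 4 ≤ ‖deriv h z‖ - ‖deriv g z‖ := by
  -- choose u with |h' + u g'| = |h'| - |g'|
  obtain ⟨u, hu1, huz⟩ : ∃ u : ℂ, ‖u‖ = 1 ∧
      ‖deriv h z + u * deriv g z‖ = ‖deriv h z‖ - ‖deriv g z‖ := by
    have hlt := hu.sp z (by simpa using hz)
    set X := deriv h z
    set Y := deriv g z
    by_cases hY : Y = 0
    · exact ⟨1, by simp, by simp [hY]⟩
    · have hX : X ≠ 0 := by
        intro h'; rw [h'] at hlt; simp at hlt; linarith [norm_nonneg Y]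
      have hXn : (‖X‖ : ℂ) ≠ 0 := by simpa using hX
      have hYn : (‖Y‖ : ℂ) ≠ 0 := by simpa using hY
      refine ⟨-(X * ‖Y‖) / (‖X‖ * Y), ?_, ?_⟩
      · rw [norm_div, norm_neg, norm_mul, norm_mul]
        simp only [Complex.norm_real, norm_norm]
        rw [div_self]
        exact mul_ne_zero (norm_ne_zero_iff.mpr hX) (norm_ne_zero_iff.mpr hY)
      · have : X + -(X * ‖Y‖) / (‖X‖ * Y) * Y = X / ‖X‖ * ((‖X‖ - ‖Y‖ : ℝ) : ℂ) := by
          push_cast; field_simp; ring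
        rw [this, norm_mul, norm_div, Complex.norm_real, Complex.norm_real, norm_norm,
          div_self (norm_ne_zero_iff.mpr hX), one_mul, Real.norm_eq_abs,
          abs_of_pos (by linarith)]
  have hK : DifferentiableOn ℂ (fun z => deriv h z + u * deriv g z) (ball 0 1) :=
    (hu.hd.deriv isOpen_ball).add ((hu.gd.deriv isOpen_ball).const_mul u)
  have hb : ∀ a : ℂ, ‖a‖ < 1 → ‖((1 : ℂ) - a * (starRingEnd ℂ) a) *
      deriv (fun z => deriv h z + u * deriv g z) a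
      - 2 * (starRingEnd ℂ) a * (deriv h a + u * deriv g a)‖
      ≤ 6 * ‖deriv h a + u * deriv g a‖ := by
    intro a ha
    have hd : deriv (fun z => deriv h z + u * deriv g z) a
        = deriv (deriv h) a + u * deriv (deriv g) a := by
      have a1 := (diffAt_of (hu.hd.deriv isOpen_ball) (show a ∈ ball (0 : ℂ) 1 by simpa using ha))
      have a2 := (diffAt_of (hu.gd.deriv isOpen_ball) (show a ∈ ball (0 : ℂ) 1 by simpa using ha))
      exact (a1.hasDerivAt.add (a2.hasDerivAt.const_mul u)).deriv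
    rw [hd]
    exact a2_everywhere H hu hu1 ha
  have := radial_growth hK hb hz
  simp only [h1, g1, mul_zero, add_zero, norm_one, one_mul] at this
  rw [huz] at this
  exact this

end Pool.Agent.Lib.MP4cd976.E
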